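import Mathlib

/-!
Ordered sums of products of anticommuting elements.
-/

namespace Pool.Agent.GaussPoset.Fs

open Finset

variable {A : Type*} [Ring A]

/-- sum over increasing `r`-tuples of labels `< M` of the products `g l_1 ⋯ g l_r` -/
def Sx (g : ℕ → A) : ℕ → ℕ → A
  | 0, _ => 1
  | _ + 1, 0 => 0
  | r + 1, M + 1 => Sx g (r + 1) M + Sx g r M * g M

lemma Sx_zero (g : ℕ → A) (M : ℕ) : Sx g 0 M = 1 := by
  unfold Sx; rfl

lemma Sx_succ_zero (g : ℕ → A) (r : ℕ) : Sx g (r + 1) 0 = 0 := by
  unfold Sx; rfl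

lemma Sx_succ (g : ℕ → A) (r M : ℕ) : Sx g (r + 1) (M + 1) = Sx g (r + 1) M + Sx g r M * g M := by
  conv_lhs => unfold Sx

lemma Sx_gt (g : ℕ → A) : ∀ M r, M < r → Sx g r M = 0 := by
  intro M
  induction M with
  | zero =>
    intro r hr
    obtain ⟨r, rfl⟩ := Nat.exists_eq_succ_of_ne_zero (by omega : r ≠ 0)
    exact Sx_succ_zero g r
  | succ M ih =>
    intro r hr
    obtain ⟨r, rfl⟩ := Nat.exists_eq_succ_of_ne_zero (by omega : r ≠ 0)
    rw [Nat.succ_eq_add_one, Sx_succ, ih _ (by omega), ih _ (by omega), zero_mul, add_zero]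

/-- splitting the labels at `t` -/
lemma Sx_split (g : ℕ → A) (t : ℕ) : ∀ M r, Sx g r (t + M) =
    ∑ p ∈ antidiagonal r, Sx g p.2 t * Sx (fun x => g (t + x)) p.1 M := by
  intro M
  induction M with
  | zero =>
    intro r
    rw [Finset.sum_eq_single (0, r)]
    · rw [Sx_zero, mul_one, add_zero]
    · rintro ⟨a, b⟩ hab hne
      rw [HasAntidiagonal.mem_antidiagonal] at hab
      simp only at hab
      have ha : a ≠ 0 := by
        rintro rfl
        apply hne
        rw [zero_add] at hab
        rw [hab]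
      obtain ⟨a, rfl⟩ := Nat.exists_eq_succ_of_ne_zero ha
      rw [Nat.succ_eq_add_one, Sx_succ_zero, mul_zero]
    · intro h
      exact absurd (HasAntidiagonal.mem_antidiagonal.mpr (zero_add r)) h
  | succ M ih =>
    intro r
    cases r with
    | zero => simp [Sx_zero]
    | succ r =>
      rw [← add_assoc, Sx_succ, ih, ih, Finset.Nat.antidiagonal_succ, Finset.sum_cons,
        Finset.sum_cons, Finset.sum_map, Finset.sum_map, Finset.sum_mul, add_assoc,
        ← Finset.sum_add_distrib]
      simp only [Sx_zero, mul_one]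
      congr 1
      refine Finset.sum_congr rfl fun x _ => ?_
      change Sx g x.2 t * Sx (fun x => g (t + x)) (x.1 + 1) M +
        Sx g x.2 t * Sx (fun x => g (t + x)) x.1 M * g (t + M) =
        Sx g x.2 t * Sx (fun x => g (t + x)) (x.1 + 1) (M + 1)
      rw [Sx_succ, mul_add, mul_assoc]

variable {g : ℕ → A} (hac : ∀ x y, g x * g y = -(g y * g x)) (hsq : ∀ x, g x * g x = 0)

/-- the odd sum -/
def sg (g : ℕ → A) (M : ℕ) : A := ∑ x ∈ range M, g x

/-- the even sum -/
def pg (g : ℕ → A) (M : ℕ) : A := ∑ x ∈ range M, sg g x * g x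

lemma sg_succ (M : ℕ) : sg g (M + 1) = sg g M + g M := by
  unfold sg; rw [Finset.sum_range_succ]

lemma pg_succ (M : ℕ) : pg g (M + 1) = pg g M + sg g M * g M := by
  unfold pg; rw [Finset.sum_range_succ]

include hac in
lemma sg_g (M x : ℕ) : sg g M * g x = -(g x * sg g M) := by
  unfold sg
  rw [Finset.sum_mul, Finset.mul_sum, ← Finset.sum_neg_distrib]
  exact Finset.sum_congr rfl fun y _ => hac y x

include hac hsq in
lemma sg_sq (M : ℕ) : sg g M * sg g M = 0 := by
  induction M with
  | zero => simp [sg]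
  | succ M ih =>
    rw [sg_succ, mul_add, add_mul, add_mul, ih, hsq, sg_g hac]
    abel

include hac in
lemma comm_g (M x : ℕ) : Commute (pg g M) (g x) := by
  induction M with
  | zero => simp [pg]
  | succ M ih =>
    rw [pg_succ]
    refine ih.add_left ?_
    unfold Commute SemiconjBy
    rw [mul_assoc, hac M x, mul_neg, ← mul_assoc, sg_g hac, neg_mul, neg_neg, mul_assoc]

include hac in
lemma comm_sg (M N : ℕ) : Commute (pg g M) (sg g N) := by
  unfold sg
  exact Commute.sum_right _ _ _ fun x _ => comm_g hac M x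

include hac hsq in
lemma sgg_sq (M : ℕ) : (sg g M * g M) * (sg g M * g M) = 0 := by
  rw [mul_assoc, ← mul_assoc (g M), ← neg_neg (g M * sg g M), ← sg_g hac, neg_mul, mul_neg,
    mul_assoc (sg g M) (g M) (g M), hsq]
  simp

include hac hsq in
lemma pg_succ_pow (M p : ℕ) : (pg g (M + 1)) ^ (p + 1) =
    (pg g M) ^ (p + 1) + (p + 1 : ℕ) • ((pg g M) ^ p * (sg g M * g M)) := by
  have hc : Commute (pg g M) (sg g M * g M) := (comm_sg hac M M).mul_right (comm_g hac M M)
  induction p with
  | zero => simp [pg_succ]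
  | succ p ih =>
    rw [pow_succ, ih, pg_succ, mul_add, add_mul, add_mul, smul_mul_assoc, smul_mul_assoc,
      mul_assoc ((pg g M) ^ p) (sg g M * g M) (sg g M * g M), sgg_sq hac hsq, mul_zero, smul_zero,
      add_zero, mul_assoc ((pg g M) ^ p) (sg g M * g M) (pg g M), ← hc.eq, ← mul_assoc,
      ← pow_succ, ← pow_succ, succ_nsmul ((pg g M) ^ (p + 1) * (sg g M * g M)) (p + 1)]
    abel

include hac hsq in
lemma g_mid (M : ℕ) : sg g (M + 1) * (sg g M * g M) = 0 := by
  rw [sg_succ, add_mul, ← mul_assoc, sg_sq hac hsq, zero_mul, zero_add, ← mul_assoc,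
    ← neg_neg (g M * sg g M), ← sg_g hac, neg_mul, mul_assoc, hsq, mul_zero, neg_zero]

include hac hsq in
/-- the closed form of the ordered sums -/
theorem Sx_formula (M : ℕ) : ∀ p : ℕ, (p.factorial : ℕ) • Sx g (2 * p) M = (pg g M) ^ p ∧
    (p.factorial : ℕ) • Sx g (2 * p + 1) M = sg g M * (pg g M) ^ p := by
  induction M with
  | zero =>
    intro p
    constructor
    · cases p with
      | zero => simp [Sx_zero]
      | succ p =>
        rw [Sx_gt g 0 _ (by omega)]
        simp [pg]
    · rw [Sx_gt g 0 _ (by omega)]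
      simp [sg]
  | succ M ih =>
    intro p
    constructor
    · cases p with
      | zero => simp [Sx_zero]
      | succ p =>
        have e : 2 * (p + 1) = (2 * p + 1) + 1 := by ring
        obtain ⟨h1, -⟩ := ih (p + 1)
        obtain ⟨-, h2⟩ := ih p
        rw [e] at h1
        rw [e, Sx_succ, smul_add, h1, Nat.factorial_succ, pg_succ_pow hac hsq, mul_smul,
          ← smul_mul_assoc, h2, ← (comm_sg hac M M |>.pow_left p).eq, mul_assoc]
    · obtain ⟨h1, h2⟩ := ih p
      rw [Sx_succ, smul_add, h2, ← smul_mul_assoc, h1]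
      cases p with
      | zero => simp [sg_succ]
      | succ p =>
        rw [pg_succ_pow hac hsq, mul_add, mul_smul_comm,
          ← mul_assoc (sg g (M + 1)), ← (comm_sg hac M (M + 1) |>.pow_left p).eq, mul_assoc _ (sg g (M + 1)),
          g_mid hac hsq, mul_zero, smul_zero, add_zero, sg_succ, add_mul,
          (comm_g hac M M |>.pow_left (p + 1)).eq]

end Pool.Agent.GaussPoset.Fs
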