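import Pool.Agent.W_448fs_h5.FsA

/-!
Order at `q ^ M = 1` of ordered sums of exponential polynomials.
-/

namespace Pool.Agent.GaussPoset.Fs

open Finset

variable {K : Type*} [Field K] {A : Type*} [Ring A] [Algebra K A]

/-- `f M` is `(1 - q ^ M) ^ k` times a polynomial in `q ^ M` with coefficients in `A` -/
def Ok (q : K) (k : ℕ) (f : ℕ → A) : Prop :=
  ∃ P : Polynomial A, ∀ M, f M = (1 - q ^ M) ^ k • P.eval (algebraMap K A (q ^ M))

lemma eval_mul_alg (P Q : Polynomial A) (c : K) :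
    (P * Q).eval (algebraMap K A c) = P.eval (algebraMap K A c) * Q.eval (algebraMap K A c) := by
  unfold Polynomial.eval
  rw [Polynomial.eval₂_mul_noncomm]
  intro k
  exact (Algebra.commutes c _).symm

variable {q : K}

lemma Ok.const (w : A) : Ok q 0 (fun _ => w) := by
  refine ⟨Polynomial.C w, fun M => ?_⟩
  simp

lemma Ok.add {k : ℕ} {f g : ℕ → A} (hf : Ok q k f) (hg : Ok q k g) :
    Ok q k (fun M => f M + g M) := by
  obtain ⟨P, hP⟩ := hf
  obtain ⟨Q, hQ⟩ := hg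
  refine ⟨P + Q, fun M => ?_⟩
  change f M + g M = _
  rw [hP, hQ, Polynomial.eval_add, smul_add]

lemma Ok.zero (k : ℕ) : Ok q k (fun _ => (0 : A)) := ⟨0, fun M => by simp⟩

lemma Ok.sum {ι : Type*} (s : Finset ι) {k : ℕ} {f : ι → ℕ → A} (h : ∀ i ∈ s, Ok q k (f i)) :
    Ok q k (fun M => ∑ i ∈ s, f i M) := by
  classical
  induction s using Finset.induction_on with
  | empty => simpa using Ok.zero k
  | insert a s ha ih =>
    simp only [Finset.sum_insert ha]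
    exact (h a (mem_insert_self a s)).add (ih fun i hi => h i (mem_insert_of_mem hi))

lemma Ok.mul {k l : ℕ} {f g : ℕ → A} (hf : Ok q k f) (hg : Ok q l g) :
    Ok q (k + l) (fun M => f M * g M) := by
  obtain ⟨P, hP⟩ := hf
  obtain ⟨Q, hQ⟩ := hg
  refine ⟨P * Q, fun M => ?_⟩
  change f M * g M = _
  rw [hP, hQ, eval_mul_alg, smul_mul_smul_comm, pow_add]

lemma Ok.pow {f : ℕ → A} (hf : Ok q 1 f) : ∀ p : ℕ, Ok q p (fun M => f M ^ p)
  | 0 => by simpa using Ok.const (1 : A)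
  | p + 1 => by
    simp only [pow_succ]
    exact (Ok.pow hf p).mul hf

lemma Ok.smul {k : ℕ} {f : ℕ → A} (c : K) (hf : Ok q k f) : Ok q k (fun M => c • f M) := by
  obtain ⟨P, hP⟩ := hf
  refine ⟨Polynomial.C (algebraMap K A c) * P, fun M => ?_⟩
  change c • f M = _
  rw [hP, eval_mul_alg, Polynomial.eval_C, smul_comm, Algebra.smul_def c]

lemma Ok.mono {k l : ℕ} {f : ℕ → A} (hf : Ok q k f) (hl : l ≤ k) : Ok q l f := by
  obtain ⟨P, hP⟩ := hf
  refine ⟨(1 - Polynomial.X) ^ (k - l) * P, fun M => ?_⟩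
  rw [hP, eval_mul_alg]
  have h1 : ∀ n : ℕ, ((1 - Polynomial.X : Polynomial A) ^ n).eval (algebraMap K A (q ^ M)) =
      algebraMap K A ((1 - q ^ M) ^ n) := by
    intro n
    induction n with
    | zero => simp
    | succ n ih =>
      rw [pow_succ, eval_mul_alg, ih, Polynomial.eval_sub, Polynomial.eval_one,
        Polynomial.eval_X, pow_succ, map_mul, map_sub, map_one]
  rw [h1, ← Algebra.smul_def, smul_smul, ← pow_add]
  congr 2
  omega

/-- the scalar geometric sums -/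
lemma Ok.geom (hq : ∀ j : ℕ, 1 ≤ j → q ^ j ≠ 1) {j : ℕ} (hj : 1 ≤ j) (w : A) :
    Ok q 1 (fun M => (∑ x ∈ range M, (q ^ j) ^ x) • w) := by
  refine ⟨∑ i ∈ range j, Polynomial.C ((1 - q ^ j)⁻¹ • w) * Polynomial.X ^ i, fun M => ?_⟩
  have h1 : 1 - q ^ j ≠ 0 := sub_ne_zero.mpr (hq j hj).symm
  have h2 : (∑ x ∈ range M, (q ^ j) ^ x) = (1 - q ^ M) * (∑ i ∈ range j, (q ^ M) ^ i) *
      (1 - q ^ j)⁻¹ := by
    rw [eq_mul_inv_iff_mul_eq₀ h1]
    have h3 := geom_sum_mul (q ^ j) M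
    have h4 := geom_sum_mul (q ^ M) j
    have h5 : (q ^ j) ^ M = (q ^ M) ^ j := by rw [← pow_mul, ← pow_mul, mul_comm]
    have h6 : (∑ x ∈ range M, (q ^ j) ^ x) * (1 - q ^ j) = 1 - (q ^ j) ^ M := by
      rw [← neg_sub (q ^ j) 1, mul_neg, h3]; ring
    have h7 : (1 - q ^ M) * (∑ i ∈ range j, (q ^ M) ^ i) = 1 - (q ^ M) ^ j := by
      rw [mul_comm, ← neg_sub (q ^ M) 1, mul_neg, h4]; ring
    rw [h6, h7, h5]
  change (∑ x ∈ range M, (q ^ j) ^ x) • w = _
  rw [pow_one, Polynomial.eval_finsetSum, h2]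
  have h3 : ∀ i : ℕ, (Polynomial.C ((1 - q ^ j)⁻¹ • w) * Polynomial.X ^ i : Polynomial A).eval
      (algebraMap K A (q ^ M)) = (q ^ M) ^ i • (1 - q ^ j)⁻¹ • w := by
    intro i
    rw [Polynomial.eval_mul_X_pow, Polynomial.eval_C, ← map_pow,
      Algebra.smul_def ((q ^ M) ^ i)]
    exact (Algebra.commutes _ _).symm
  simp only [h3]
  rw [← Finset.sum_smul, smul_smul, smul_smul]

section Exp

variable {g : ℕ → A} {J : ℕ} {v : ℕ → A}

lemma Ok.sg (hq : ∀ j : ℕ, 1 ≤ j → q ^ j ≠ 1)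
    (hg : ∀ x, g x = ∑ j ∈ range J, (q ^ (j + 1)) ^ x • v j) : Ok q 1 (Fs.sg g) := by
  have h1 : Fs.sg g = fun M => ∑ j ∈ range J, (∑ x ∈ range M, (q ^ (j + 1)) ^ x) • v j := by
    funext M
    unfold Fs.sg
    simp only [hg]
    rw [Finset.sum_comm]
    exact Finset.sum_congr rfl fun j _ => (Finset.sum_smul).symm
  rw [h1]
  exact Ok.sum _ fun j _ => Ok.geom hq (by omega) _

lemma Ok.pg (hq : ∀ j : ℕ, 1 ≤ j → q ^ j ≠ 1)
    (hg : ∀ x, g x = ∑ j ∈ range J, (q ^ (j + 1)) ^ x • v j) : Ok q 1 (Fs.pg g) := by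
  have h0 : ∀ x, Fs.sg g x = ∑ j ∈ range J, ((1 - q ^ (j + 1))⁻¹ * (1 - (q ^ (j + 1)) ^ x)) •
      v j := by
    intro x
    unfold Fs.sg
    simp only [hg]
    rw [Finset.sum_comm]
    refine Finset.sum_congr rfl fun j _ => ?_
    rw [← Finset.sum_smul]
    congr 1
    have h1 : 1 - q ^ (j + 1) ≠ 0 := sub_ne_zero.mpr (hq _ (by omega)).symm
    rw [eq_comm, inv_mul_eq_iff_eq_mul₀ h1]
    have h3 := geom_sum_mul (q ^ (j + 1)) x
    have h4 : (1 - q ^ (j + 1)) * ∑ i ∈ range x, (q ^ (j + 1)) ^ i = 1 - (q ^ (j + 1)) ^ x := by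
      rw [mul_comm, ← neg_sub (q ^ (j + 1)) 1, mul_neg, h3]; ring
    rw [h4]
  have h1 : Fs.pg g = fun M => ∑ j ∈ range J, ∑ k ∈ range J,
      ((1 - q ^ (j + 1))⁻¹ • ((∑ x ∈ range M, (q ^ (k + 1)) ^ x) • (v j * v k)) +
      (-(1 - q ^ (j + 1))⁻¹) • ((∑ x ∈ range M, (q ^ (j + k + 2)) ^ x) • (v j * v k))) := by
    funext M
    have h2 : ∀ x, Fs.sg g x * g x = ∑ j ∈ range J, ∑ k ∈ range J,
        (((1 - q ^ (j + 1))⁻¹ * ((q ^ (k + 1)) ^ x)) • (v j * v k) +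
        (-(1 - q ^ (j + 1))⁻¹ * ((q ^ (j + k + 2)) ^ x)) • (v j * v k)) := by
      intro x
      rw [h0, hg, Finset.sum_mul_sum]
      refine Finset.sum_congr rfl fun j _ => Finset.sum_congr rfl fun k _ => ?_
      rw [smul_mul_smul_comm, ← add_smul]
      congr 1
      ring
    unfold Fs.pg
    simp only [h2]
    rw [Finset.sum_comm]
    refine Finset.sum_congr rfl fun j _ => ?_
    rw [Finset.sum_comm]
    refine Finset.sum_congr rfl fun k _ => ?_
    rw [Finset.sum_add_distrib, ← Finset.sum_smul, ← Finset.sum_smul, ← Finset.mul_sum,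
      ← Finset.mul_sum, smul_smul, smul_smul]
  rw [h1]
  exact Ok.sum _ fun j _ => Ok.sum _ fun k _ =>
    ((Ok.geom hq (by omega) _).smul _).add ((Ok.geom hq (by omega) _).smul _)

/-- order of the ordered sums -/
theorem Ok.Sx [CharZero K] (hq : ∀ j : ℕ, 1 ≤ j → q ^ j ≠ 1)
    (hg : ∀ x, g x = ∑ j ∈ range J, (q ^ (j + 1)) ^ x • v j)
    (hac : ∀ x y, g x * g y = -(g y * g x)) (hsq : ∀ x, g x * g x = 0) (r : ℕ) :
    Ok q ((r + 1) / 2) (Fs.Sx g r) := by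
  have hfac : ∀ (p : ℕ) (a b : A), (p.factorial : ℕ) • a = b →
      a = ((p.factorial : K)⁻¹) • b := by
    intro p a b h
    rw [← h, ← Nat.cast_smul_eq_nsmul K, smul_smul, inv_mul_cancel₀, one_smul]
    exact_mod_cast Nat.factorial_ne_zero p
  rcases Nat.even_or_odd' r with ⟨p, rfl | rfl⟩
  · have h1 : Fs.Sx g (2 * p) = fun M => ((p.factorial : K)⁻¹) • (Fs.pg g M) ^ p := by
      funext M
      exact hfac p _ _ (Sx_formula hac hsq M p).1
    rw [h1]
    have h2 : (2 * p + 1) / 2 = p := by omega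
    rw [h2]
    exact ((Ok.pg hq hg).pow p).smul _
  · have h1 : Fs.Sx g (2 * p + 1) = fun M => ((p.factorial : K)⁻¹) •
        (Fs.sg g M * (Fs.pg g M) ^ p) := by
      funext M
      exact hfac p _ _ (Sx_formula hac hsq M p).2
    rw [h1]
    have h2 : (2 * p + 1 + 1) / 2 = 1 + p := by omega
    rw [h2]
    exact ((Ok.sg hq hg).mul ((Ok.pg hq hg).pow p)).smul _

end Exp

/-- apply a linear functional -/
lemma Ok.functional {k : ℕ} {f : ℕ → A} (hf : Ok q k f) (φ : A →ₗ[K] K) :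
    ∃ P : Polynomial K, (1 - Polynomial.X) ^ k ∣ P ∧ ∀ M, φ (f M) = P.eval (q ^ M) := by
  obtain ⟨P, hP⟩ := hf
  refine ⟨(1 - Polynomial.X) ^ k * ∑ i ∈ P.support, Polynomial.C (φ (P.coeff i)) *
    Polynomial.X ^ i, dvd_mul_right _ _, fun M => ?_⟩
  rw [hP, map_smul, Polynomial.eval_mul, Polynomial.eval_pow, Polynomial.eval_sub,
    Polynomial.eval_one, Polynomial.eval_X, smul_eq_mul, Polynomial.eval_eq_sum,
    Polynomial.sum, map_sum, Polynomial.eval_finsetSum]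
  congr 1
  refine Finset.sum_congr rfl fun i _ => ?_
  rw [Polynomial.eval_mul, Polynomial.eval_C, Polynomial.eval_pow, Polynomial.eval_X,
    ← map_pow, ← Algebra.commutes, ← Algebra.smul_def, map_smul, smul_eq_mul, mul_comm]

end Pool.Agent.GaussPoset.Fs
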