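import Pool.Agent.W_448fs_h5.FsB

/-!
Ordered sums of determinants.
-/

namespace Pool.Agent.GaussPoset.Fs

open Finset

section Wedge

variable {K : Type*} [Field K] {V : Type*} [AddCommGroup V] [Module K V]

/-- the wedge of the vectors `g l`, `l ∈ L`, in increasing order -/
noncomputable def wp (g : ℕ → V) (r : ℕ) (L : Finset ℕ) : ExteriorAlgebra K V :=
  if h : L.card = r then ExteriorAlgebra.ιMulti K r (fun b => g (L.orderEmbOfFin h b)) else 0

lemma ιMulti_succ_last (r : ℕ) (v : Fin (r + 1) → V) : ExteriorAlgebra.ιMulti K (r + 1) v =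
    ExteriorAlgebra.ιMulti K r (fun b => v b.castSucc) * ExteriorAlgebra.ι K (v (Fin.last r)) := by
  rw [ExteriorAlgebra.ιMulti_apply, ExteriorAlgebra.ιMulti_apply, List.ofFn_succ',
    List.prod_concat]

lemma orderEmb_insert {N r : ℕ} {L : Finset ℕ} (hL : L ⊆ range N) (h : L.card = r)
    (h' : (insert N L).card = r + 1) :
    (∀ b : Fin r, (insert N L).orderEmbOfFin h' b.castSucc = L.orderEmbOfFin h b) ∧
      (insert N L).orderEmbOfFin h' (Fin.last r) = N := by
  have h1 : (Fin.snoc (α := fun _ => ℕ) (L.orderEmbOfFin h) N : Fin (r + 1) → ℕ) =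
      (insert N L).orderEmbOfFin h' := by
    apply Finset.orderEmbOfFin_unique h'
    · intro x
      refine Fin.lastCases ?_ (fun b => ?_) x
      · rw [Fin.snoc_last]; exact mem_insert_self N L
      · rw [Fin.snoc_castSucc]
        exact mem_insert_of_mem (Finset.orderEmbOfFin_mem L h b)
    · intro x y hxy
      revert hxy
      refine Fin.lastCases ?_ (fun b => ?_) y
      · intro hxy
        rw [Fin.snoc_last]
        obtain ⟨a, rfl⟩ : ∃ a : Fin r, x = a.castSucc := by
          refine ⟨⟨x, ?_⟩, ?_⟩
          · have := Fin.lt_def.mp hxy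
            simpa using this
          · ext; rfl
        rw [Fin.snoc_castSucc]
        exact mem_range.mp (hL (Finset.orderEmbOfFin_mem L h a))
      · intro hxy
        obtain ⟨a, rfl⟩ : ∃ a : Fin r, x = a.castSucc := by
          refine ⟨⟨x, ?_⟩, ?_⟩
          · have := Fin.lt_def.mp hxy
            have h2 := b.2
            simp only [Fin.val_castSucc] at this
            omega
          · ext; rfl
        rw [Fin.snoc_castSucc, Fin.snoc_castSucc]
        exact (L.orderEmbOfFin h).strictMono (Fin.castSucc_lt_castSucc_iff.mp hxy)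
  constructor
  · intro b
    rw [← h1, Fin.snoc_castSucc]
  · rw [← h1, Fin.snoc_last]

lemma wp_insert (g : ℕ → V) {N r : ℕ} {L : Finset ℕ} (hL : L ∈ (range N).powersetCard r) :
    wp (K := K) g (r + 1) (insert N L) = wp g r L * ExteriorAlgebra.ι K (g N) := by
  rw [mem_powersetCard] at hL
  have hN : N ∉ L := fun h => absurd (mem_range.mp (hL.1 h)) (lt_irrefl N)
  have h' : (insert N L).card = r + 1 := by rw [card_insert_of_notMem hN, hL.2]
  obtain ⟨h1, h2⟩ := orderEmb_insert hL.1 hL.2 h'
  unfold wp
  rw [dif_pos h', dif_pos hL.2, ιMulti_succ_last, h2]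
  simp only [h1]

/-- the ordered sums as sums over sets of labels -/
lemma Sx_eq_sum (g : ℕ → V) : ∀ N r, Sx (fun x => ExteriorAlgebra.ι K (g x)) r N =
    ∑ L ∈ (range N).powersetCard r, wp g r L := by
  intro N
  induction N with
  | zero =>
    intro r
    cases r with
    | zero =>
      rw [Sx_zero, powersetCard_zero, sum_singleton]
      unfold wp
      rw [dif_pos card_empty, ExteriorAlgebra.ιMulti_zero_apply]
    | succ r =>
      rw [Sx_succ_zero, powersetCard_eq_empty.mpr (by simp), sum_empty]
  | succ N ih =>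
    intro r
    cases r with
    | zero =>
      rw [Sx_zero, powersetCard_zero, sum_singleton]
      unfold wp
      rw [dif_pos card_empty, ExteriorAlgebra.ιMulti_zero_apply]
    | succ r =>
      rw [Sx_succ, ih, ih, range_add_one, powersetCard_succ_insert notMem_range_self,
        sum_union, sum_image, sum_mul]
      · congr 1
        exact sum_congr rfl fun L hL => (wp_insert g hL).symm
      · intro L hL L' hL' h
        simp only [mem_coe, mem_powersetCard] at hL hL'
        have h1 : N ∉ L := fun h => absurd (mem_range.mp (hL.1 h)) (lt_irrefl N)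
        have h2 : N ∉ L' := fun h => absurd (mem_range.mp (hL'.1 h)) (lt_irrefl N)
        rw [← erase_insert h1, ← erase_insert h2, h]
      · rw [disjoint_left]
        intro L hL hL'
        rw [mem_image] at hL'
        obtain ⟨L', -, rfl⟩ := hL'
        rw [mem_powersetCard] at hL
        exact absurd (mem_range.mp (hL.1 (mem_insert_self N L'))) (lt_irrefl N)

lemma ι_anti (v w : V) : ExteriorAlgebra.ι K v * ExteriorAlgebra.ι K w =
    -(ExteriorAlgebra.ι K w * ExteriorAlgebra.ι K v) :=
  eq_neg_of_add_eq_zero_left (ExteriorAlgebra.ι_add_mul_swap v w)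

end Wedge

section Det

variable {K : Type*} [Field K] {n : ℕ}

/-- the determinant with the columns `G · l`, `l ∈ L` -/
noncomputable def dterm (G : Fin n → ℕ → K) (L : Finset ℕ) : K :=
  if h : L.card = n then (Matrix.of fun b a : Fin n => G a (L.orderEmbOfFin h b)).det else 0

/-- ordered sum of determinants over labels `< N` -/
noncomputable def dsum (G : Fin n → ℕ → K) (N : ℕ) : K :=
  ∑ L ∈ (range N).powersetCard n, dterm G L

/-- the volume functional -/
noncomputable def vol (K : Type*) [Field K] (n : ℕ) : ExteriorAlgebra K (Fin n → K) →ₗ[K] K :=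
  ExteriorAlgebra.liftAlternating
    (Pi.single (M := fun i => (Fin n → K) [⋀^Fin i]→ₗ[K] K) n Matrix.detRowAlternating)

lemma vol_wp (G : Fin n → ℕ → K) (L : Finset ℕ) :
    vol K n (wp (fun x a => G a x) n L) = dterm G L := by
  unfold wp dterm
  split_ifs with h
  · unfold vol
    rw [ExteriorAlgebra.liftAlternating_apply_ιMulti, Pi.single_eq_same]
    rfl
  · exact map_zero _

lemma dsum_eq (G : Fin n → ℕ → K) (N : ℕ) :
    dsum G N = vol K n (Sx (fun x => ExteriorAlgebra.ι K (fun a => G a x)) n N) := by
  rw [Sx_eq_sum, map_sum]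
  unfold dsum
  exact sum_congr rfl fun L _ => (vol_wp G L).symm

/-- order of the ordered sum of determinants of exponential polynomials -/
theorem dsum_order [CharZero K] {q : K} (hq : ∀ j : ℕ, 1 ≤ j → q ^ j ≠ 1) {t : ℕ}
    {G : Fin n → ℕ → K} {J : ℕ} {c : ℕ → Fin n → K}
    (hG : ∀ a x, G a (t + x) = ∑ j ∈ range J, (q ^ (j + 1)) ^ x * c j a) :
    ∃ P : Polynomial K, (1 - Polynomial.X) ^ ((n - t + 1) / 2) ∣ P ∧
      ∀ M, dsum G (t + M) = P.eval (q ^ M) := by
  classical
  let g : ℕ → ExteriorAlgebra K (Fin n → K) := fun x => ExteriorAlgebra.ι K (fun a => G a x)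
  have hexp : ∀ x, g (t + x) = ∑ j ∈ range J, (q ^ (j + 1)) ^ x • ExteriorAlgebra.ι K (c j) := by
    intro x
    change ExteriorAlgebra.ι K (fun a => G a (t + x)) = _
    have h1 : (fun a => G a (t + x)) = ∑ j ∈ range J, (q ^ (j + 1)) ^ x • c j := by
      funext a
      rw [hG, Finset.sum_apply]
      exact sum_congr rfl fun j _ => rfl
    rw [h1, map_sum]
    exact sum_congr rfl fun j _ => map_smul _ _ _
  have hok : Ok q ((n - t + 1) / 2) (fun M => Sx g n (t + M)) := by
    have h1 : (fun M => Sx g n (t + M)) = fun M => ∑ p ∈ antidiagonal n,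
        Sx g p.2 t * Sx (fun x => g (t + x)) p.1 M := by
      funext M
      exact Sx_split g t M n
    rw [h1]
    refine Ok.sum _ fun p hp => ?_
    rw [HasAntidiagonal.mem_antidiagonal] at hp
    by_cases hp2 : t < p.2
    · simp only [Sx_gt g t p.2 hp2, zero_mul]
      exact Ok.zero _
    · have h2 := Ok.Sx hq (g := fun x => g (t + x)) hexp (fun x y => ι_anti _ _)
        (fun x => ExteriorAlgebra.ι_sq_zero _) p.1
      have h3 := (Ok.const (q := q) (Sx g p.2 t)).mul h2
      exact h3.mono (by omega)
  obtain ⟨P, hP1, hP2⟩ := hok.functional (vol K n)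
  exact ⟨P, hP1, fun M => by rw [dsum_eq]; exact hP2 M⟩

/-- labels below `s` with zero columns can be added -/
theorem dsum_shift {G G' : Fin n → ℕ → K} (s : ℕ) (h0 : ∀ a x, x < s → G' a x = 0)
    (h1 : ∀ a x, G' a (s + x) = G a x) (M : ℕ) : dsum G' (s + M) = dsum G M := by
  rw [dsum_eq, dsum_eq, Sx_split]
  congr 1
  rw [Finset.sum_eq_single (n, 0)]
  · rw [Sx_zero, one_mul]
    congr 1
    funext x
    congr 1
    funext a
    exact h1 a x
  · rintro ⟨a, b⟩ hab hne
    rw [HasAntidiagonal.mem_antidiagonal] at hab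
    simp only at hab
    have hb : b ≠ 0 := by
      rintro rfl
      apply hne
      rw [add_zero] at hab
      rw [hab]
    have h2 : ∀ m ≤ s, ∀ r, r ≠ 0 →
        Sx (fun x => ExteriorAlgebra.ι K (fun a => G' a x)) r m = 0 := by
      intro m
      induction m with
      | zero =>
        intro _ r hr
        exact Sx_gt _ _ _ (by omega)
      | succ m ih =>
        intro hm r hr
        obtain ⟨r, rfl⟩ := Nat.exists_eq_succ_of_ne_zero hr
        rw [Nat.succ_eq_add_one, Sx_succ, ih (by omega) _ (by omega)]
        have h3 : (fun a => G' a m) = 0 := by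
          funext a
          exact h0 a m (by omega)
        simp only [h3, map_zero, mul_zero, add_zero]
    simp only
    rw [h2 s le_rfl b hb, zero_mul]
  · intro h
    exact absurd (HasAntidiagonal.mem_antidiagonal.mpr (add_zero n)) h

end Det

end Pool.Agent.GaussPoset.Fs
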