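import Pool.Agent.W_448fs_h5.FsC
import Pool.Agent.W_448fw_h5.FwF

/-!
From the values `U_m` to the order of the window polynomial.
-/

namespace Pool.Agent.GaussPoset.Fs

open Finset Polynomial

universe u

variable {Q : Type u} [Fintype Q] [PartialOrder Q] [DecidableEq Q]

/-- if `C U_m = P(q ^ (i + m + 1))` with `(1 - X) ^ k ∣ P`, then `(1 + X) ^ k` divides the window
polynomial -/
theorem dvd_W_of_eval {K : Type*} [Field K] (ψ : PowerSeries ℤ →+* K)
    (hψ : Function.Injective ψ) {i k : ℕ} (P : K[X]) (hP : (1 - X) ^ k ∣ P) {C0 : K}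
    (hC : C0 ≠ 0) (h : ∀ m : ℕ, C0 * ψ ((U Q m : ℤ[X]) : PowerSeries ℤ) =
      P.eval ((ψ PowerSeries.X) ^ (i + m + 1))) :
    (1 + X : Polynomial (PowerSeries ℤ)) ^ k ∣ W Q i := by
  have hinj : Function.Injective (fun m : ℕ => (ψ PowerSeries.X) ^ (i + m + 1)) := by
    intro a b hab
    simp only [← map_pow] at hab
    have := congrArg PowerSeries.order (hψ hab)
    rw [PowerSeries.order_X_pow, PowerSeries.order_X_pow] at this
    have h2 : i + a + 1 = i + b + 1 := by exact_mod_cast this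
    omega
  have key : C C0 * ((W Q i).map ψ).comp (-X) =
      C ((ψ PowerSeries.X) ^ (i * Fintype.card Q)) * P := by
    apply Polynomial.eq_of_infinite_eval_eq
    refine Set.infinite_of_injective_forall_mem hinj fun m => ?_
    simp only [Set.mem_ofPred_eq]
    rw [eval_mul, eval_mul, eval_C, eval_C, eval_comp, eval_neg, eval_X, ← h m]
    have h1 := W_eval (P := Q) i m
    have h2 : ((W Q i).map ψ).eval (-(ψ PowerSeries.X) ^ (i + m + 1)) =
        ψ ((W Q i).eval (-(PowerSeries.X : PowerSeries ℤ) ^ (i + m + 1))) := by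
      rw [eval_map, ← map_pow, ← map_neg, eval₂_hom]
    rw [h2, h1, map_mul, map_pow]
    ring
  have h3 : (1 - X : K[X]) ^ k ∣ ((W Q i).map ψ).comp (-X) := by
    have h4 : (1 - X : K[X]) ^ k ∣ C C0 * ((W Q i).map ψ).comp (-X) := by
      rw [key]; exact hP.mul_left _
    have h5 : ((W Q i).map ψ).comp (-X) = C C0⁻¹ * (C C0 * ((W Q i).map ψ).comp (-X)) := by
      rw [← mul_assoc, ← C_mul, inv_mul_cancel₀ hC, C_1, one_mul]
    rw [h5]
    exact h4.mul_left _
  have h6 : (1 + X : K[X]) ^ k ∣ (W Q i).map ψ := by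
    obtain ⟨g, hg⟩ := h3
    refine ⟨g.comp (-X), ?_⟩
    have h7 := congrArg (fun f : K[X] => f.comp (-X)) hg
    simp only [mul_comp, pow_comp, sub_comp, one_comp, X_comp, sub_neg_eq_add] at h7
    rw [← h7, comp_assoc, neg_comp, X_comp, neg_neg, comp_X]
  have h8 : ((1 + X : Polynomial (PowerSeries ℤ)) ^ k).map ψ = (1 + X) ^ k := by
    rw [Polynomial.map_pow, Polynomial.map_add, Polynomial.map_one, Polynomial.map_X]
  have hm : ((1 + X : Polynomial (PowerSeries ℤ)) ^ k).Monic := by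
    have := (monic_X_add_C (1 : PowerSeries ℤ)).pow k
    rwa [C_1, add_comm] at this
  rw [← h8, Polynomial.map_dvd_map ψ hψ hm] at h6
  exact h6

end Pool.Agent.GaussPoset.Fs
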